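import Pool.Agent.H71.PX.Targets

/-!
# (A2): tilings are models of the axioms for the prefix AEA
-/

set_option autoImplicit false

open Pool.Agent.H71.PX Pool.Agent.H8.PL

namespace Pool.Agent.H32.PX.A2

theorem pf_A2 : T_A2 := by
  intro Q U Hh Vv n t hn ht
  refine ⟨⟨fun x => (x : ℕ) = 0, fun x => (x : ℕ) + 1 = n, fun x y => x < y,
    fun q x y => t x y = q⟩, ?_⟩
  intro x
  have hy : (if (x : ℕ) + 1 < n then (x : ℕ) + 1 else 0) < n := by
    split_ifs with h
    · exact h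
    · exact hn
  refine ⟨⟨if (x : ℕ) + 1 < n then (x : ℕ) + 1 else 0, hy⟩, ?_⟩
  intro z
  have hx := x.2
  have hz := z.2
  refine ⟨?_, ?_, ?_, ?_, ?_, ?_, ?_, ?_, ?_⟩
  · exact lt_irrefl x
  · rcases lt_trichotomy x z with h | h | h
    · exact Or.inr (Or.inl h)
    · exact Or.inl h
    · exact Or.inr (Or.inr h)
  · intro h h'
    have h1 : (z : ℕ) = 0 := h
    have h2 : (x : ℕ) < (z : ℕ) := h'
    omega
  · intro h h'
    have h1 : (x : ℕ) + 1 = n := h
    have h2 : (x : ℕ) < (z : ℕ) := h'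
    omega
  · intro h
    have h1 : (x : ℕ) + 1 = n := h
    change (if (x : ℕ) + 1 < n then (x : ℕ) + 1 else 0) = 0
    rw [if_neg (by omega)]
  · intro h
    have h1 : ¬ (x : ℕ) + 1 = n := h
    have h2 : (x : ℕ) + 1 < n := by omega
    change (x : ℕ) < (z : ℕ) ↔ z = ⟨if (x : ℕ) + 1 < n then (x : ℕ) + 1 else 0, hy⟩ ∨
      (if (x : ℕ) + 1 < n then (x : ℕ) + 1 else 0) < (z : ℕ)
    rw [Fin.ext_iff]
    simp only [h2, if_true]
    omega
  · exact ⟨_, rfl⟩
  · intro q hq b1 b2 b3 b4 h1 h2 h3 h4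
    have hq' : t x z = q := hq
    have e1 : b1 = decide ((x : ℕ) = 0) := by
      rw [Bool.eq_iff_iff, h1, decide_eq_true_iff]
    have e2 : b2 = decide ((x : ℕ) + 1 = n) := by
      rw [Bool.eq_iff_iff, h2, decide_eq_true_iff]
    have e3 : b3 = decide ((z : ℕ) = 0) := by
      rw [Bool.eq_iff_iff, h3, decide_eq_true_iff]
    have e4 : b4 = decide ((z : ℕ) + 1 = n) := by
      rw [Bool.eq_iff_iff, h4, decide_eq_true_iff]
    rw [e1, e2, e3, e4, ← hq']
    exact ht.1 x hx z hz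
  · intro h q q'
    have h1 : ¬ (x : ℕ) + 1 = n := h
    have h2 : (x : ℕ) + 1 < n := by omega
    constructor
    · intro h3 h4
      have h5 : t x z = q := h3
      have h6 : t (if (x : ℕ) + 1 < n then (x : ℕ) + 1 else 0) z = q' := h4
      rw [if_pos h2] at h6
      rw [← h5, ← h6]
      exact ht.2.1 x z h2 hz
    · intro h3 h4
      have h5 : t z x = q := h3
      have h6 : t z (if (x : ℕ) + 1 < n then (x : ℕ) + 1 else 0) = q' := h4
      rw [if_pos h2] at h6
      rw [← h5, ← h6]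
      exact ht.2.2 z x hz h2

end Pool.Agent.H32.PX.A2
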