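import Pool.Agent.H71.PX.Targets

/-!
# (EN): every structure is given by relations
-/

set_option autoImplicit false

open Pool.Agent.H71.PX

namespace Pool.Agent.H32.PX.EN

variable {α Q : Type}

/-- the relations of a structure -/
private def re (e : Q → ℕ) (m : St α Q) : ℕ → List α → Prop
  | k, [x] => (k = 0 ∧ m.N x) ∨ (k = 1 ∧ m.C x) ∨ (k = 2 ∧ m.Zr x) ∨ (k = 3 ∧ m.Tp x) ∨
      (k = 4 ∧ m.Z2 x) ∨ (k = 5 ∧ m.SD x) ∨ (∃ q, k = 3 * e q + 22 ∧ m.U1 q x) ∨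
      ∃ q, k = 3 * e q + 23 ∧ m.U2 q x
  | k, [x, y] => (k = 6 ∧ m.Lt x y) ∨ (k = 7 ∧ m.S x y) ∨ (k = 8 ∧ m.P false x y) ∨
      (k = 9 ∧ m.P true x y) ∨ (k = 10 ∧ m.L false x y) ∨ (k = 11 ∧ m.L true x y) ∨
      (k = 12 ∧ m.R false x y) ∨ (k = 13 ∧ m.R true x y) ∨ (k = 14 ∧ m.Pd x y) ∨
      (k = 15 ∧ m.A x y) ∨ (k = 16 ∧ m.K x y) ∨ (k = 17 ∧ m.B x y) ∨ (k = 18 ∧ m.E x y) ∨
      (k = 19 ∧ m.F false x y) ∨ (k = 20 ∧ m.F true x y) ∨ ∃ q, k = 3 * e q + 21 ∧ m.T q x y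
  | _, _ => False

private theorem ext1 (m m' : St α Q) (h1 : ∀ x, m.N x ↔ m'.N x) (h2 : ∀ x, m.C x ↔ m'.C x)
    (h3 : ∀ x, m.Zr x ↔ m'.Zr x) (h4 : ∀ x, m.Tp x ↔ m'.Tp x) (h5 : ∀ x, m.Z2 x ↔ m'.Z2 x)
    (h6 : ∀ x, m.SD x ↔ m'.SD x) (h7 : ∀ x y, m.Lt x y ↔ m'.Lt x y)
    (h8 : ∀ x y, m.S x y ↔ m'.S x y) (h9 : ∀ a x y, m.P a x y ↔ m'.P a x y)
    (h10 : ∀ a x y, m.L a x y ↔ m'.L a x y) (h11 : ∀ a x y, m.R a x y ↔ m'.R a x y)
    (h12 : ∀ x y, m.Pd x y ↔ m'.Pd x y) (h13 : ∀ x y, m.A x y ↔ m'.A x y)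
    (h14 : ∀ x y, m.K x y ↔ m'.K x y) (h15 : ∀ x y, m.B x y ↔ m'.B x y)
    (h16 : ∀ x y, m.E x y ↔ m'.E x y) (h17 : ∀ a x y, m.F a x y ↔ m'.F a x y)
    (h18 : ∀ q x y, m.T q x y ↔ m'.T q x y) (h19 : ∀ q x, m.U1 q x ↔ m'.U1 q x)
    (h20 : ∀ q x, m.U2 q x ↔ m'.U2 q x) : m = m' := by
  cases m
  cases m'
  simp only [St.mk.injEq]
  refine ⟨?_, ?_, ?_, ?_, ?_, ?_, ?_, ?_, ?_, ?_, ?_, ?_, ?_, ?_, ?_, ?_, ?_, ?_, ?_, ?_⟩
  · exact funext fun x => propext (h1 x)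
  · exact funext fun x => propext (h2 x)
  · exact funext fun x => propext (h3 x)
  · exact funext fun x => propext (h4 x)
  · exact funext fun x => propext (h5 x)
  · exact funext fun x => propext (h6 x)
  · exact funext fun x => funext fun y => propext (h7 x y)
  · exact funext fun x => funext fun y => propext (h8 x y)
  · exact funext fun a => funext fun x => funext fun y => propext (h9 a x y)
  · exact funext fun a => funext fun x => funext fun y => propext (h10 a x y)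
  · exact funext fun a => funext fun x => funext fun y => propext (h11 a x y)
  · exact funext fun x => funext fun y => propext (h12 x y)
  · exact funext fun x => funext fun y => propext (h13 x y)
  · exact funext fun x => funext fun y => propext (h14 x y)
  · exact funext fun x => funext fun y => propext (h15 x y)
  · exact funext fun x => funext fun y => propext (h16 x y)
  · exact funext fun a => funext fun x => funext fun y => propext (h17 a x y)
  · exact funext fun q => funext fun x => funext fun y => propext (h18 q x y)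
  · exact funext fun q => funext fun x => propext (h19 q x)
  · exact funext fun q => funext fun x => propext (h20 q x)

private theorem re1 (e : Q → ℕ) (m : St α Q) (k : ℕ) (hk : k < 21) (x : α) : re e m k [x] ↔
    ((k = 0 ∧ m.N x) ∨ (k = 1 ∧ m.C x) ∨ (k = 2 ∧ m.Zr x) ∨ (k = 3 ∧ m.Tp x) ∨
      (k = 4 ∧ m.Z2 x) ∨ (k = 5 ∧ m.SD x)) := by
  have e1 : re e m k [x] = ((k = 0 ∧ m.N x) ∨ (k = 1 ∧ m.C x) ∨ (k = 2 ∧ m.Zr x) ∨
      (k = 3 ∧ m.Tp x) ∨ (k = 4 ∧ m.Z2 x) ∨ (k = 5 ∧ m.SD x) ∨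
      (∃ q, k = 3 * e q + 22 ∧ m.U1 q x) ∨ ∃ q, k = 3 * e q + 23 ∧ m.U2 q x) := rfl
  rw [e1]
  have h1 : ¬ ∃ q, k = 3 * e q + 22 ∧ m.U1 q x := by
    rintro ⟨q, h, _⟩
    omega
  have h2 : ¬ ∃ q, k = 3 * e q + 23 ∧ m.U2 q x := by
    rintro ⟨q, h, _⟩
    omega
  simp only [h1, h2, or_false]

private theorem re2 (e : Q → ℕ) (m : St α Q) (k : ℕ) (hk : k < 21) (x y : α) : re e m k [x, y] ↔
    ((k = 6 ∧ m.Lt x y) ∨ (k = 7 ∧ m.S x y) ∨ (k = 8 ∧ m.P false x y) ∨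
      (k = 9 ∧ m.P true x y) ∨ (k = 10 ∧ m.L false x y) ∨ (k = 11 ∧ m.L true x y) ∨
      (k = 12 ∧ m.R false x y) ∨ (k = 13 ∧ m.R true x y) ∨ (k = 14 ∧ m.Pd x y) ∨
      (k = 15 ∧ m.A x y) ∨ (k = 16 ∧ m.K x y) ∨ (k = 17 ∧ m.B x y) ∨ (k = 18 ∧ m.E x y) ∨
      (k = 19 ∧ m.F false x y) ∨ (k = 20 ∧ m.F true x y)) := by
  have e1 : re e m k [x, y] = ((k = 6 ∧ m.Lt x y) ∨ (k = 7 ∧ m.S x y) ∨ (k = 8 ∧ m.P false x y) ∨
      (k = 9 ∧ m.P true x y) ∨ (k = 10 ∧ m.L false x y) ∨ (k = 11 ∧ m.L true x y) ∨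
      (k = 12 ∧ m.R false x y) ∨ (k = 13 ∧ m.R true x y) ∨ (k = 14 ∧ m.Pd x y) ∨
      (k = 15 ∧ m.A x y) ∨ (k = 16 ∧ m.K x y) ∨ (k = 17 ∧ m.B x y) ∨ (k = 18 ∧ m.E x y) ∨
      (k = 19 ∧ m.F false x y) ∨ (k = 20 ∧ m.F true x y) ∨
      ∃ q, k = 3 * e q + 21 ∧ m.T q x y) := rfl
  rw [e1]
  have h1 : ¬ ∃ q, k = 3 * e q + 21 ∧ m.T q x y := by
    rintro ⟨q, h, _⟩
    omega
  simp only [h1, or_false]

private theorem dec_re (e : Q → ℕ) (he : Function.Injective e) (m : St α Q) :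
    dec e (re e m) = m := by
  refine ext1 _ _ ?_ ?_ ?_ ?_ ?_ ?_ ?_ ?_ ?_ ?_ ?_ ?_ ?_ ?_ ?_ ?_ ?_ ?_ ?_ ?_
  · intro x; exact (re1 e m 0 (by norm_num) x).trans (by simp)
  · intro x; exact (re1 e m 1 (by norm_num) x).trans (by simp)
  · intro x; exact (re1 e m 2 (by norm_num) x).trans (by simp)
  · intro x; exact (re1 e m 3 (by norm_num) x).trans (by simp)
  · intro x; exact (re1 e m 4 (by norm_num) x).trans (by simp)
  · intro x; exact (re1 e m 5 (by norm_num) x).trans (by simp)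
  · intro x y; exact (re2 e m 6 (by norm_num) x y).trans (by simp)
  · intro x y; exact (re2 e m 7 (by norm_num) x y).trans (by simp)
  · intro a x y
    cases a
    · exact (re2 e m 8 (by norm_num) x y).trans (by simp)
    · exact (re2 e m 9 (by norm_num) x y).trans (by simp)
  · intro a x y
    cases a
    · exact (re2 e m 10 (by norm_num) x y).trans (by simp)
    · exact (re2 e m 11 (by norm_num) x y).trans (by simp)
  · intro a x y
    cases a
    · exact (re2 e m 12 (by norm_num) x y).trans (by simp)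
    · exact (re2 e m 13 (by norm_num) x y).trans (by simp)
  · intro x y; exact (re2 e m 14 (by norm_num) x y).trans (by simp)
  · intro x y; exact (re2 e m 15 (by norm_num) x y).trans (by simp)
  · intro x y; exact (re2 e m 16 (by norm_num) x y).trans (by simp)
  · intro x y; exact (re2 e m 17 (by norm_num) x y).trans (by simp)
  · intro x y; exact (re2 e m 18 (by norm_num) x y).trans (by simp)
  · intro a x y
    cases a
    · exact (re2 e m 19 (by norm_num) x y).trans (by simp)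
    · exact (re2 e m 20 (by norm_num) x y).trans (by simp)
  · intro q x y
    change re e m (3 * e q + 21) [x, y] ↔ m.T q x y
    have e1 : ∀ k, re e m k [x, y] = ((k = 6 ∧ m.Lt x y) ∨ (k = 7 ∧ m.S x y) ∨
      (k = 8 ∧ m.P false x y) ∨
      (k = 9 ∧ m.P true x y) ∨ (k = 10 ∧ m.L false x y) ∨ (k = 11 ∧ m.L true x y) ∨
      (k = 12 ∧ m.R false x y) ∨ (k = 13 ∧ m.R true x y) ∨ (k = 14 ∧ m.Pd x y) ∨
      (k = 15 ∧ m.A x y) ∨ (k = 16 ∧ m.K x y) ∨ (k = 17 ∧ m.B x y) ∨ (k = 18 ∧ m.E x y) ∨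
      (k = 19 ∧ m.F false x y) ∨ (k = 20 ∧ m.F true x y) ∨
      ∃ q, k = 3 * e q + 21 ∧ m.T q x y) := fun _ => rfl
    rw [e1]
    constructor
    · intro h
      iterate 15
        rcases h with ⟨h, _⟩ | h
        · exfalso
          omega
      obtain ⟨q', h, h'⟩ := h
      have : q = q' := he (by omega)
      rw [this]
      exact h'
    · intro h
      iterate 15 refine Or.inr ?_
      exact ⟨q, rfl, h⟩
  · intro q x
    change re e m (3 * e q + 22) [x] ↔ m.U1 q x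
    have e1 : ∀ k, re e m k [x] = ((k = 0 ∧ m.N x) ∨ (k = 1 ∧ m.C x) ∨ (k = 2 ∧ m.Zr x) ∨
      (k = 3 ∧ m.Tp x) ∨ (k = 4 ∧ m.Z2 x) ∨ (k = 5 ∧ m.SD x) ∨
      (∃ q, k = 3 * e q + 22 ∧ m.U1 q x) ∨ ∃ q, k = 3 * e q + 23 ∧ m.U2 q x) := fun _ => rfl
    rw [e1]
    constructor
    · intro h
      iterate 6
        rcases h with ⟨h, _⟩ | h
        · exfalso
          omega
      rcases h with ⟨q', h, h'⟩ | ⟨q', h, h'⟩
      · have : q = q' := he (by omega)
        rw [this]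
        exact h'
      · exfalso
        omega
    · intro h
      iterate 6 refine Or.inr ?_
      exact Or.inl ⟨q, rfl, h⟩
  · intro q x
    change re e m (3 * e q + 23) [x] ↔ m.U2 q x
    have e1 : ∀ k, re e m k [x] = ((k = 0 ∧ m.N x) ∨ (k = 1 ∧ m.C x) ∨ (k = 2 ∧ m.Zr x) ∨
      (k = 3 ∧ m.Tp x) ∨ (k = 4 ∧ m.Z2 x) ∨ (k = 5 ∧ m.SD x) ∨
      (∃ q, k = 3 * e q + 22 ∧ m.U1 q x) ∨ ∃ q, k = 3 * e q + 23 ∧ m.U2 q x) := fun _ => rfl
    rw [e1]
    constructor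
    · intro h
      iterate 6
        rcases h with ⟨h, _⟩ | h
        · exfalso
          omega
      rcases h with ⟨q', h, h'⟩ | ⟨q', h, h'⟩
      · exfalso
        omega
      · have : q = q' := he (by omega)
        rw [this]
        exact h'
    · intro h
      iterate 7 refine Or.inr ?_
      exact ⟨q, rfl, h⟩

/-- the relations of a structure for the prefix AEA -/
private def rea (e : Q → ℕ) (m : Sa α Q) (k : ℕ) (l : List α) : Prop :=
  (k = 0 ∧ ∃ x, l = [x] ∧ m.Zr x) ∨ (k = 1 ∧ ∃ x, l = [x] ∧ m.Tp x) ∨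
    (k = 2 ∧ ∃ x y, l = [x, y] ∧ m.Lt x y) ∨ ∃ q, k = 3 + e q ∧ ∃ x y, l = [x, y] ∧ m.T q x y

private theorem ext2 (m m' : Sa α Q) (h1 : ∀ x, m.Zr x ↔ m'.Zr x) (h2 : ∀ x, m.Tp x ↔ m'.Tp x)
    (h3 : ∀ x y, m.Lt x y ↔ m'.Lt x y) (h4 : ∀ q x y, m.T q x y ↔ m'.T q x y) : m = m' := by
  cases m
  cases m'
  simp only [Sa.mk.injEq]
  refine ⟨?_, ?_, ?_, ?_⟩
  · exact funext fun x => propext (h1 x)
  · exact funext fun x => propext (h2 x)
  · exact funext fun x => funext fun y => propext (h3 x y)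
  · exact funext fun q => funext fun x => funext fun y => propext (h4 q x y)

private theorem deca_rea (e : Q → ℕ) (he : Function.Injective e) (m : Sa α Q) :
    deca e (rea e m) = m := by
  refine ext2 _ _ ?_ ?_ ?_ ?_
  · intro x
    change rea e m 0 [x] ↔ m.Zr x
    constructor
    · rintro (⟨_, y, h, h'⟩ | ⟨h, _⟩ | ⟨h, _⟩ | ⟨q, h, _⟩)
      · simp only [List.cons.injEq, and_true] at h
        rw [h]
        exact h'
      · exfalso; omega
      · exfalso; omega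
      · exfalso; omega
    · intro h
      exact Or.inl ⟨rfl, x, rfl, h⟩
  · intro x
    change rea e m 1 [x] ↔ m.Tp x
    constructor
    · rintro (⟨h, _⟩ | ⟨_, y, h, h'⟩ | ⟨h, _⟩ | ⟨q, h, _⟩)
      · exfalso; omega
      · simp only [List.cons.injEq, and_true] at h
        rw [h]
        exact h'
      · exfalso; omega
      · exfalso; omega
    · intro h
      exact Or.inr (Or.inl ⟨rfl, x, rfl, h⟩)
  · intro x y
    change rea e m 2 [x, y] ↔ m.Lt x y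
    constructor
    · rintro (⟨h, _⟩ | ⟨h, _⟩ | ⟨_, x', y', h, h'⟩ | ⟨q, h, _⟩)
      · exfalso; omega
      · exfalso; omega
      · simp only [List.cons.injEq, and_true] at h
        rw [h.1, h.2]
        exact h'
      · exfalso; omega
    · intro h
      exact Or.inr (Or.inr (Or.inl ⟨rfl, x, y, rfl, h⟩))
  · intro q x y
    change rea e m (3 + e q) [x, y] ↔ m.T q x y
    constructor
    · rintro (⟨h, _⟩ | ⟨h, _⟩ | ⟨h, _⟩ | ⟨q', h, x', y', h', h''⟩)
      · exfalso; omega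
      · exfalso; omega
      · exfalso; omega
      · have e1 : q = q' := he (by omega)
        simp only [List.cons.injEq, and_true] at h'
        rw [h'.1, h'.2, e1]
        exact h''
    · intro h
      exact Or.inr (Or.inr (Or.inr ⟨q, rfl, x, y, rfl, h⟩))

theorem pf_EN : T_EN := fun _ _ e he =>
  ⟨fun m => ⟨re e m, dec_re e he m⟩, fun m => ⟨rea e m, deca_rea e he m⟩⟩

end Pool.Agent.H32.PX.EN
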