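import Pool.Agent.H71.PX.Targets

/-!
# (QA): the axioms for the prefix AEA are given by a quantifier-free formula
-/

set_option autoImplicit false

open Pool.Agent.H71.PX

namespace Pool.Agent.H32.PX.QA

private theorem u (k : ℕ) : QD (fun _ R x _ _ => R k [x]) :=
  (QD.r1 k 0 (by norm_num)).congr fun _ _ _ _ _ => by simp [pk]

private theorem uy (k : ℕ) : QD (fun _ R _ y _ => R k [y]) :=
  (QD.r1 k 1 (by norm_num)).congr fun _ _ _ _ _ => by simp [pk]

private theorem uz (k : ℕ) : QD (fun _ R _ _ z => R k [z]) :=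
  (QD.r1 k 2 (by norm_num)).congr fun _ _ _ _ _ => by simp [pk]

private theorem xx (k : ℕ) : QD (fun _ R x _ _ => R k [x, x]) :=
  (QD.r2 k 0 0 (by norm_num) (by norm_num)).congr fun _ _ _ _ _ => by simp [pk]

private theorem xz (k : ℕ) : QD (fun _ R x _ z => R k [x, z]) :=
  (QD.r2 k 0 2 (by norm_num) (by norm_num)).congr fun _ _ _ _ _ => by simp [pk]

private theorem zx (k : ℕ) : QD (fun _ R x _ z => R k [z, x]) :=
  (QD.r2 k 2 0 (by norm_num) (by norm_num)).congr fun _ _ _ _ _ => by simp [pk]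

private theorem yz (k : ℕ) : QD (fun _ R _ y z => R k [y, z]) :=
  (QD.r2 k 1 2 (by norm_num) (by norm_num)).congr fun _ _ _ _ _ => by simp [pk]

private theorem zy (k : ℕ) : QD (fun _ R _ y z => R k [z, y]) :=
  (QD.r2 k 2 1 (by norm_num) (by norm_num)).congr fun _ _ _ _ _ => by simp [pk]

private theorem exz : QD (fun _ _ x _ z => x = z) :=
  (QD.eq 0 2 (by norm_num) (by norm_num)).congr fun _ _ _ _ _ => by simp [pk]

private theorem ezy : QD (fun _ _ _ y z => z = y) :=
  (QD.eq 2 1 (by norm_num) (by norm_num)).congr fun _ _ _ _ _ => by simp [pk]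

theorem pf_QA : T_QA := by
  intro Q _ e U Hh Vv
  have h1 := (xx 2).not
  have h2 := exz.or ((xz 2).or (zx 2))
  have h3 := (uz 0).imp (xz 2).not
  have h4 := (u 1).imp (xz 2).not
  have h5 := (u 1).imp (uy 0)
  have h6 := (u 1).not.imp ((xz 2).iff (ezy.or (yz 2)))
  have h7 := QD.ex fun q : Q => xz (3 + e q)
  have h8 := QD.all fun q : Q => (xz (3 + e q)).imp (QD.all fun b1 : Bool => QD.all fun b2 : Bool =>
    QD.all fun b3 : Bool => QD.all fun b4 : Bool => ((QD.const (b1 = true)).iff (u 0)).imp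
      (((QD.const (b2 = true)).iff (u 1)).imp (((QD.const (b3 = true)).iff (uz 0)).imp
        (((QD.const (b4 = true)).iff (uz 1)).imp (QD.const (U b1 b2 b3 b4 q))))))
  have h9 := (u 1).not.imp (QD.all fun q : Q => QD.all fun q' : Q =>
    ((xz (3 + e q)).imp ((yz (3 + e q')).imp (QD.const (Hh q q')))).and
      ((zx (3 + e q)).imp ((zy (3 + e q')).imp (QD.const (Vv q q')))))
  exact (h1.and (h2.and (h3.and (h4.and (h5.and (h6.and (h7.and (h8.and h9)))))))).congr
    fun _ _ _ _ _ => Iff.rfl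

end Pool.Agent.H32.PX.QA
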